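import Mathlib

set_option autoImplicit false

open Set MeasureTheory Filter
open scoped Topology ENNReal NNReal ContDiff

namespace RPS48

/-- the exponents `j * j!` -/
def ax (j : ℕ) : ℕ := j * j.factorial

theorem ax_succ (j : ℕ) : ax (j + 1) = (j + 1) * (j + 1) * j.factorial := by
  rw [ax, Nat.factorial_succ, mul_assoc]

theorem ax_mul_le (j : ℕ) : j * ax j ≤ ax (j + 1) := by
  rw [ax_succ, ax, ← mul_assoc]
  exact Nat.mul_le_mul_right _ (Nat.mul_le_mul (by omega) (by omega))

theorem ax_lt (j : ℕ) : ax j + 1 ≤ ax (j + 1) := by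
  rw [ax_succ, ax]
  have h1 := j.factorial_pos
  nlinarith [Nat.mul_le_mul_right j.factorial (show j + 1 ≤ (j + 1) * (j + 1) by nlinarith)]

theorem ax_strictMono : StrictMono ax := strictMono_nat_of_lt_succ fun j => ax_lt j

theorem le_ax (j : ℕ) : j ≤ ax j := ax_strictMono.le_apply

theorem ax_add (j m : ℕ) : ax j + m ≤ ax (j + m) := by
  induction m with
  | zero => simp
  | succ m ih =>
    have h1 := ax_lt (j + m)
    change ax j + (m + 1) ≤ ax (j + m + 1)
    omega

/-- digit floor -/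
noncomputable def fl (j : ℕ) (x : ℝ) : ℕ := ⌊(2 : ℝ) ^ ax j * x⌋₊

/-- truncation -/
noncomputable def T (j : ℕ) (x : ℝ) : ℝ := fl j x / 2 ^ ax j

theorem fl_of_le (i j : ℕ) (hij : i ≤ j) (x : ℝ) : fl i x = fl j x / 2 ^ (ax j - ax i) := by
  have h1 : ax i ≤ ax j := ax_strictMono.monotone hij
  have h2 : (2 : ℝ) ^ ax i * x = (2 : ℝ) ^ ax j * x / ((2 ^ (ax j - ax i) : ℕ) : ℝ) := by
    have h3 : (2 : ℝ) ^ ax j = 2 ^ ax i * 2 ^ (ax j - ax i) := by
      rw [← pow_add]; congr 1; omega
    rw [h3]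
    push_cast
    field_simp
  rw [fl, h2, Nat.floor_div_natCast]
  rfl

theorem fl_eq_of_le (i j : ℕ) (hij : i ≤ j) (x y : ℝ) (h : fl j x = fl j y) : fl i x = fl i y := by
  rw [fl_of_le i j hij x, fl_of_le i j hij y, h]

theorem fl_lt (j : ℕ) (x : ℝ) (hx : x ∈ Ico (0 : ℝ) 1) : fl j x < 2 ^ ax j := by
  rw [fl, Nat.floor_lt (by have := hx.1; positivity)]
  push_cast
  have : (0 : ℝ) < 2 ^ ax j := by positivity
  nlinarith [hx.2]

theorem T_le (j : ℕ) (x : ℝ) (hx : 0 ≤ x) : T j x ≤ x := by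
  rw [T, div_le_iff₀ (by positivity), mul_comm]
  exact Nat.floor_le (by positivity)

theorem lt_T (j : ℕ) (x : ℝ) : x < T j x + 1 / 2 ^ ax j := by
  rw [T, ← add_div, lt_div_iff₀ (by positivity), mul_comm]
  exact Nat.lt_floor_add_one _

theorem T_neg (j : ℕ) (x : ℝ) (hx : x ≤ 0) : T j x = 0 := by
  rw [T, fl, Nat.floor_of_nonpos (mul_nonpos_of_nonneg_of_nonpos (by positivity) hx)]
  simp

/-- the blocks of binary digits -/
noncomputable def xi (j : ℕ) (x : ℝ) : ℝ := T (j + 1) x - T j x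

theorem abs_xi_le (j : ℕ) (x : ℝ) : |xi j x| ≤ 1 / 2 ^ ax j := by
  rcases le_total x 0 with hx | hx
  · rw [xi, T_neg _ _ hx, T_neg _ _ hx, sub_zero, abs_zero]
    positivity
  · rw [xi, abs_le]
    have h1 := T_le j x hx
    have h2 := T_le (j + 1) x hx
    have h3 := lt_T j x
    have h4 := lt_T (j + 1) x
    have h5 : (1 : ℝ) / 2 ^ ax (j + 1) ≤ 1 / 2 ^ ax j := by
      apply one_div_le_one_div_of_le (by positivity)
      exact pow_le_pow_right₀ (by norm_num) (ax_strictMono.monotone (Nat.le_succ j))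
    constructor <;> linarith

theorem xi_le_geom (j : ℕ) (x : ℝ) : |xi j x| ≤ (1 / 2) ^ j := by
  refine (abs_xi_le j x).trans ?_
  rw [one_div_pow]
  apply one_div_le_one_div_of_le (by positivity)
  exact pow_le_pow_right₀ (by norm_num) (le_ax j)

theorem hasSum_xi (x : ℝ) (hx : x ∈ Ico (0 : ℝ) 1) : HasSum (fun j => xi j x) x := by
  have h1 : Summable (fun j => xi j x) := by
    apply Summable.of_norm_bounded summable_geometric_two
    intro j
    exact xi_le_geom j x
  rw [h1.hasSum_iff_tendsto_nat]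
  have h2 : ∀ n, ∑ i ∈ Finset.range n, xi i x = T n x := by
    intro n
    have h3 : T 0 x = 0 := by
      rw [T, fl]
      have : ⌊(2 : ℝ) ^ ax 0 * x⌋₊ = 0 := by
        rw [Nat.floor_eq_zero]
        simpa [ax] using hx.2
      rw [this]
      simp
    have h4 := Finset.sum_range_sub (fun j => T j x) n
    rw [h3, sub_zero] at h4
    exact h4
  simp only [h2]
  have h5 : Tendsto (fun n : ℕ => x - (1 / 2 : ℝ) ^ n) atTop (𝓝 x) := by
    have := tendsto_pow_atTop_nhds_zero_of_lt_one (by norm_num : (0 : ℝ) ≤ 1 / 2)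
      (by norm_num : (1 / 2 : ℝ) < 1)
    simpa using this.const_sub x
  apply tendsto_of_tendsto_of_tendsto_of_le_of_le h5 tendsto_const_nhds
  · intro n
    have h6 := lt_T n x
    have h7 : (1 : ℝ) / 2 ^ ax n ≤ (1 / 2) ^ n := by
      rw [one_div_pow]
      apply one_div_le_one_div_of_le (by positivity)
      exact pow_le_pow_right₀ (by norm_num) (le_ax n)
    dsimp only
    linarith
  · intro n
    exact T_le n x hx.1

theorem xi_eq (i j : ℕ) (hij : i < j) (x y : ℝ) (h : fl j x = fl j y) : xi i x = xi i y := by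
  rw [xi, xi, T, T, T, T, fl_eq_of_le (i + 1) j hij x y h, fl_eq_of_le i j hij.le x y h]

theorem measurable_xi (j : ℕ) : Measurable (xi j) := by
  unfold xi T fl
  fun_prop

theorem tendsto_cover (d : ℕ) (C e : ℝ) (hC : 0 ≤ C) (he : 0 < e) :
    Tendsto (fun j => ((2 : ℝ) ^ ax j) ^ d * (C / 2 ^ ax (j + 1)) ^ e) atTop (𝓝 0) := by
  have h1 : ∀ j, ((2 : ℝ) ^ ax j) ^ d * (C / 2 ^ ax (j + 1)) ^ e =
      C ^ e * (2 : ℝ) ^ ((d : ℝ) * ax j - e * ax (j + 1)) := by
    intro j
    rw [Real.div_rpow hC (by positivity), Real.rpow_sub (by norm_num), ← Real.rpow_natCast,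
      ← Real.rpow_natCast (2 : ℝ) (ax j), ← Real.rpow_natCast (2 : ℝ) (ax (j + 1)),
      ← Real.rpow_mul (by norm_num), ← Real.rpow_mul (by norm_num), mul_comm (d : ℝ),
      mul_comm e (ax (j + 1) : ℝ)]
    ring
  simp only [h1]
  rw [← mul_zero (C ^ e)]
  apply Tendsto.const_mul
  have h2 : Tendsto (fun j : ℕ => (d : ℝ) * ax j - e * ax (j + 1)) atTop atBot := by
    obtain ⟨J, hJ⟩ := exists_nat_gt (((d : ℝ) + 1) / e)
    have h3 : ∀ᶠ j : ℕ in atTop, (d : ℝ) * ax j - e * ax (j + 1) ≤ -(j : ℝ) := by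
      filter_upwards [eventually_ge_atTop J] with j hj
      have h4 : ((j : ℝ)) * ax j ≤ ax (j + 1) := by exact_mod_cast ax_mul_le j
      have h5 : (j : ℝ) ≤ ax j := by exact_mod_cast le_ax j
      have h6 : (d : ℝ) + 1 ≤ e * j := by
        have h7 : ((d : ℝ) + 1) / e ≤ j := hJ.le.trans (by exact_mod_cast hj)
        rw [div_le_iff₀ he] at h7
        linarith
      have h8 : e * (j * ax j) ≤ e * ax (j + 1) := mul_le_mul_of_nonneg_left h4 he.le
      have h9 : ((d : ℝ) + 1) * ax j ≤ e * j * ax j :=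
        mul_le_mul_of_nonneg_right h6 (by positivity)
      linarith
    exact tendsto_atBot_mono' _ h3 (tendsto_neg_atTop_atBot.comp tendsto_natCast_atTop_atTop)
  exact (tendsto_rpow_atBot_of_base_gt_one 2 (by norm_num)).comp h2

section

variable {n m d : ℕ}

/-- the vector of the blocks -/
noncomputable def X (j : ℕ) (x : Fin d → ℝ) : Fin d → ℝ := fun i => xi j (x i)

theorem norm_X_le (j : ℕ) (x : Fin d → ℝ) : ‖X j x‖ ≤ 1 / 2 ^ ax j := by
  rw [pi_norm_le_iff_of_nonneg (by positivity)]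
  intro i
  exact abs_xi_le j (x i)

theorem norm_X_sub_le (j : ℕ) (x y : Fin d → ℝ) : ‖X j x - X j y‖ ≤ 2 / 2 ^ ax j := by
  refine (norm_sub_le _ _).trans ?_
  have h1 := norm_X_le j x
  have h2 := norm_X_le j y
  have h3 : (2 : ℝ) / 2 ^ ax j = 1 / 2 ^ ax j + 1 / 2 ^ ax j := by ring
  linarith

theorem exists_set (Q : ℝ → EuclideanSpace ℝ (Fin n) →L[ℝ] EuclideanSpace ℝ (Fin m))
    (p : EuclideanSpace ℝ (Fin n) →L[ℝ] (Fin d → ℝ))
    (L : ℝ → (Fin d → ℝ) →L[ℝ] EuclideanSpace ℝ (Fin n)) (I : Set ℝ) (C : ℝ) (hC : 1 ≤ C)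
    (hpL : ∀ s ∈ I, ∀ x, p (L s x) = x) (hQL : ∀ s ∈ I, ∀ x, Q s (L s x) = 0)
    (hL : ∀ s ∈ I, ‖L s‖ ≤ C) (hQ : ∀ s ∈ I, ‖Q s‖ ≤ C) (σ : ℕ → ℝ) (hσ : ∀ j, σ j ∈ I) :
    ∃ A : Set (EuclideanSpace ℝ (Fin n)), MeasurableSet A ∧ (d : ℝ≥0∞) ≤ dimH A ∧
      ∀ s ∈ I, (∃ᶠ j in atTop, ‖Q s - Q (σ j)‖ ≤ 1 / 2 ^ ax (j + 1)) → dimH (Q s '' A) = 0 := by
  have hC0 : 0 < C := by linarith
  have hsum : ∀ x : Fin d → ℝ, Summable (fun j => L (σ j) (X j x)) := by
    intro x
    apply Summable.of_norm_bounded (summable_geometric_two.mul_left C)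
    intro j
    calc ‖L (σ j) (X j x)‖ ≤ ‖L (σ j)‖ * ‖X j x‖ := (L (σ j)).le_opNorm _
      _ ≤ C * (1 / 2) ^ j := by
        apply mul_le_mul (hL _ (hσ j)) _ (norm_nonneg _) hC0.le
        rw [pi_norm_le_iff_of_nonneg (by positivity)]
        intro i
        exact xi_le_geom j (x i)
  set F : (Fin d → ℝ) → EuclideanSpace ℝ (Fin n) := fun x => ∑' j, L (σ j) (X j x) with hF
  have hFs : ∀ x, HasSum (fun j => L (σ j) (X j x)) (F x) := fun x => (hsum x).hasSum
  have hFmeas : Measurable F := by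
    apply measurable_of_tendsto_metrizable (f := fun N x => ∑ j ∈ Finset.range N, L (σ j) (X j x))
    · intro N
      apply Finset.measurable_sum
      intro j _
      apply (L (σ j)).continuous.measurable.comp
      apply measurable_pi_lambda
      intro i
      exact (measurable_xi j).comp (measurable_pi_apply i)
    · rw [tendsto_pi_nhds]
      intro x
      exact (hFs x).tendsto_sum_nat
  have hpF : ∀ x : Fin d → ℝ, (∀ i, x i ∈ Ico (0 : ℝ) 1) → p (F x) = x := by
    intro x hx
    have h1 := p.hasSum (hFs x)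
    have h2 : HasSum (fun j => X j x) x := by
      rw [Pi.hasSum]
      intro i
      exact hasSum_xi (x i) (hx i)
    have h3 : (fun j => p (L (σ j) (X j x))) = fun j => X j x := by
      funext j
      exact hpL _ (hσ j) _
    rw [h3] at h1
    exact h1.unique h2
  refine ⟨{y | (∀ i, p y i ∈ Ico (0 : ℝ) 1) ∧ F (p y) = y}, ?_, ?_, ?_⟩
  · apply MeasurableSet.inter
    · have h1 : {y : EuclideanSpace ℝ (Fin n) | ∀ i, p y i ∈ Ico (0 : ℝ) 1} =
          ⋂ i, (fun y => p y i) ⁻¹' (Ico (0 : ℝ) 1) := by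
        ext y
        simp
      change MeasurableSet {y : EuclideanSpace ℝ (Fin n) | ∀ i, p y i ∈ Ico (0 : ℝ) 1}
      rw [h1]
      apply MeasurableSet.iInter
      intro i
      exact ((continuous_apply i).comp p.continuous).measurable measurableSet_Ico
    · exact measurableSet_eq_fun (hFmeas.comp p.continuous.measurable) measurable_id
  · have h1 : dimH (Set.pi univ (fun _ : Fin d => Ioo (0 : ℝ) 1)) = (d : ℝ≥0∞) := by
      rw [Real.dimH_of_nonempty_interior]
      · simp
      · rw [(isOpen_set_pi finite_univ fun _ _ => isOpen_Ioo).interior_eq]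
        exact ⟨fun _ => 1 / 2, fun i _ => by constructor <;> norm_num⟩
    rw [← h1]
    refine le_trans (dimH_mono ?_) (p.lipschitz.dimH_image_le _)
    intro x hx
    have hx1 : ∀ i, x i ∈ Ico (0 : ℝ) 1 := fun i => Ioo_subset_Ico_self (hx i (mem_univ i))
    refine ⟨F x, ⟨?_, ?_⟩, hpF x hx1⟩
    · intro i
      rw [hpF x hx1]
      exact hx1 i
    · rw [hpF x hx1]
  · intro s hs hfreq
    set A : Set (EuclideanSpace ℝ (Fin n)) := {y | (∀ i, p y i ∈ Ico (0 : ℝ) 1) ∧ F (p y) = y}
      with hA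
    have key : ∀ j, ‖Q s - Q (σ j)‖ ≤ 1 / 2 ^ ax (j + 1) → ∀ x x' : Fin d → ℝ,
        (∀ i, fl j (x i) = fl j (x' i)) → ‖Q s (F x) - Q s (F x')‖ ≤ 8 * C ^ 2 / 2 ^ ax (j + 1) := by
      intro j hj x x' hxx
      have h1 := ((Q s).hasSum (hFs x)).sub ((Q s).hasSum (hFs x'))
      set K : ℝ := 4 * C ^ 2 / 2 ^ ax (j + 1) with hK
      have hK0 : 0 < K := by positivity
      set g : ℕ → ℝ := fun i => if i < j then 0 else K * (1 / 2) ^ (i - j) with hg
      have h2 : HasSum g (2 * K) := by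
        rw [← hasSum_nat_add_iff' j]
        have h3 : ∑ i ∈ Finset.range j, g i = 0 := by
          apply Finset.sum_eq_zero
          intro i hi
          rw [hg]
          exact if_pos (Finset.mem_range.1 hi)
        rw [h3, sub_zero]
        have h4 : (fun i => g (i + j)) = fun i => K * (1 / 2 : ℝ) ^ i := by
          funext i
          rw [hg]
          simp
        rw [h4, mul_comm 2 K]
        exact hasSum_geometric_two.mul_left K
      have h5 : ∀ i, ‖Q s (L (σ i) (X i x)) - Q s (L (σ i) (X i x'))‖ ≤ g i := by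
        intro i
        rw [← map_sub, ← map_sub]
        rcases lt_trichotomy i j with hij | hij | hij
        · have h6 : X i x - X i x' = 0 := by
            rw [sub_eq_zero]
            funext l
            exact xi_eq i j hij _ _ (hxx l)
          rw [h6, map_zero, map_zero, norm_zero, hg]
          simp [hij]
        · subst hij
          have h6 : Q s (L (σ i) (X i x - X i x')) =
              (Q s - Q (σ i)) (L (σ i) (X i x - X i x')) := by
            rw [_root_.sub_apply, hQL _ (hσ i), sub_zero]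
          have h7 : ‖X i x - X i x'‖ ≤ 2 := by
            refine (norm_X_sub_le i x x').trans ?_
            apply div_le_self (by norm_num)
            exact one_le_pow₀ (by norm_num)
          have h8 : g i = K := by rw [hg]; simp
          rw [h6, h8]
          calc ‖(Q s - Q (σ i)) (L (σ i) (X i x - X i x'))‖
              ≤ ‖Q s - Q (σ i)‖ * ‖L (σ i) (X i x - X i x')‖ := ContinuousLinearMap.le_opNorm _ _
            _ ≤ (1 / 2 ^ ax (i + 1)) * (C * 2) := by
                apply mul_le_mul hj _ (norm_nonneg _) (by positivity)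
                exact ((L (σ i)).le_opNorm _).trans (mul_le_mul (hL _ (hσ i)) h7 (norm_nonneg _)
                  hC0.le)
            _ = 2 * C / 2 ^ ax (i + 1) := by ring
            _ ≤ K := by
                rw [hK]
                apply div_le_div_of_nonneg_right _ (by positivity)
                nlinarith
        · have h8 : g i = K * (1 / 2) ^ (i - j) := by
            rw [hg]
            simp [hij.le]
          have h9 : ax (j + 1) + (i - j - 1) ≤ ax i := by
            have := ax_add (j + 1) (i - j - 1)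
            rwa [show j + 1 + (i - j - 1) = i by omega] at this
          have h10 : (2 : ℝ) / 2 ^ ax i ≤ 4 / 2 ^ ax (j + 1) * (1 / 2) ^ (i - j) := by
            have h11 : (2 : ℝ) ^ ax (j + 1) * 2 ^ (i - j - 1) ≤ 2 ^ ax i := by
              rw [← pow_add]
              exact pow_le_pow_right₀ (by norm_num) h9
            have h12 : (2 : ℝ) ^ (i - j) = 2 * 2 ^ (i - j - 1) := by
              rw [← pow_succ']; congr 1; omega
            calc (2 : ℝ) / 2 ^ ax i ≤ 2 / (2 ^ ax (j + 1) * 2 ^ (i - j - 1)) :=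
                  div_le_div_of_nonneg_left (by norm_num) (by positivity) h11
              _ = 4 / 2 ^ ax (j + 1) * (1 / 2) ^ (i - j) := by
                  rw [one_div_pow, h12]
                  have h13 : (2 : ℝ) ^ (i - j - 1) ≠ 0 := by positivity
                  have h14 : (2 : ℝ) ^ ax (j + 1) ≠ 0 := by positivity
                  field_simp
                  norm_num
          rw [h8]
          calc ‖Q s (L (σ i) (X i x - X i x'))‖
              ≤ ‖Q s‖ * ‖L (σ i) (X i x - X i x')‖ := ContinuousLinearMap.le_opNorm _ _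
            _ ≤ C * (C * (2 / 2 ^ ax i)) := by
                apply mul_le_mul (hQ s hs) _ (norm_nonneg _) hC0.le
                exact ((L (σ i)).le_opNorm _).trans (mul_le_mul (hL _ (hσ i))
                  (norm_X_sub_le i x x') (norm_nonneg _) hC0.le)
            _ ≤ C * (C * (4 / 2 ^ ax (j + 1) * (1 / 2) ^ (i - j))) := by gcongr
            _ = K * (1 / 2) ^ (i - j) := by rw [hK]; ring
      have h6 := tsum_of_norm_bounded h2 h5
      rw [h1.tsum_eq] at h6
      refine h6.trans (le_of_eq ?_)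
      rw [hK]
      ring
    obtain ⟨φ, hφ, hφg⟩ := extraction_of_frequently_atTop hfreq
    have hdiam : ∀ (N : ℕ) (v : Fin d → Fin (2 ^ ax (φ N))),
        Metric.ediam (Q s '' {y | y ∈ A ∧ ∀ i, fl (φ N) (p y i) = v i}) ≤
          ENNReal.ofReal (8 * C ^ 2 / 2 ^ ax (φ N + 1)) := by
      intro N v
      apply Metric.ediam_le
      rintro _ ⟨y, ⟨hyA, hy⟩, rfl⟩ _ ⟨y', ⟨hyA', hy'⟩, rfl⟩
      rw [edist_dist, dist_eq_norm]
      apply ENNReal.ofReal_le_ofReal
      have h1 := key (φ N) (hφg N) (p y) (p y') (fun i => (hy i).trans (hy' i).symm)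
      rwa [hyA.2, hyA'.2] at h1
    have hr : Tendsto (fun N => ENNReal.ofReal (8 * C ^ 2 / 2 ^ ax (φ N + 1))) atTop (𝓝 0) := by
      have h1 : Tendsto (fun N => (8 * C ^ 2 / 2 ^ ax (φ N + 1) : ℝ)) atTop (𝓝 0) := by
        apply tendsto_const_nhds.div_atTop
        apply (tendsto_pow_atTop_atTop_of_one_lt (by norm_num : (1 : ℝ) < 2)).comp
        exact ax_strictMono.tendsto_atTop.comp
          ((tendsto_add_atTop_nat 1).comp hφ.tendsto_atTop)
      simpa using ENNReal.tendsto_ofReal h1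
    have hcovers : ∀ N : ℕ, Q s '' A ⊆ ⋃ v : Fin d → Fin (2 ^ ax (φ N)),
        Q s '' {y | y ∈ A ∧ ∀ i, fl (φ N) (p y i) = v i} := by
      rintro N _ ⟨y, hyA, rfl⟩
      rw [mem_iUnion]
      exact ⟨fun i => ⟨fl (φ N) (p y i), fl_lt _ _ (hyA.1 i)⟩, y, ⟨hyA, fun i => rfl⟩, rfl⟩
    have hzero : ∀ e : ℝ≥0, 0 < e → dimH (Q s '' A) ≤ e := by
      intro e he
      have he' : (0 : ℝ) < e := he
      apply dimH_le_of_hausdorffMeasure_ne_top
      have hcov := tendsto_cover d (8 * C ^ 2) e (by positivity) he'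
      have h1 := Measure.hausdorffMeasure_le_liminf_sum (ι := fun N => Fin d → Fin (2 ^ ax (φ N)))
        (e : ℝ) (Q s '' A) (l := atTop)
        (fun N => ENNReal.ofReal (8 * C ^ 2 / 2 ^ ax (φ N + 1))) hr
        (fun N v => Q s '' {y | y ∈ A ∧ ∀ i, fl (φ N) (p y i) = v i})
        (Eventually.of_forall hdiam) (Eventually.of_forall hcovers)
      have h2 : Tendsto (fun N => ENNReal.ofReal (((2 : ℝ) ^ ax (φ N)) ^ d *
          (8 * C ^ 2 / 2 ^ ax (φ N + 1)) ^ (e : ℝ))) atTop (𝓝 0) := by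
        have h3 := (ENNReal.tendsto_ofReal (hcov.comp hφ.tendsto_atTop))
        simpa using h3
      have hb : ∀ N, ∑ v : Fin d → Fin (2 ^ ax (φ N)),
          Metric.ediam (Q s '' {y | y ∈ A ∧ ∀ i, fl (φ N) (p y i) = v i}) ^ (e : ℝ) ≤
          ENNReal.ofReal (((2 : ℝ) ^ ax (φ N)) ^ d *
            (8 * C ^ 2 / 2 ^ ax (φ N + 1)) ^ (e : ℝ)) := by
        intro N
        calc ∑ v : Fin d → Fin (2 ^ ax (φ N)),
              Metric.ediam (Q s '' {y | y ∈ A ∧ ∀ i, fl (φ N) (p y i) = v i}) ^ (e : ℝ)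
            ≤ ∑ v : Fin d → Fin (2 ^ ax (φ N)),
              ENNReal.ofReal (8 * C ^ 2 / 2 ^ ax (φ N + 1)) ^ (e : ℝ) :=
              Finset.sum_le_sum fun v _ => ENNReal.rpow_le_rpow (hdiam N v) he'.le
          _ = ENNReal.ofReal (((2 : ℝ) ^ ax (φ N)) ^ d *
              (8 * C ^ 2 / 2 ^ ax (φ N + 1)) ^ (e : ℝ)) := by
              rw [Finset.sum_const, Finset.card_univ, Fintype.card_fun, Fintype.card_fin,
                Fintype.card_fin, nsmul_eq_mul, ENNReal.ofReal_rpow_of_nonneg (by positivity)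
                he'.le, ← ENNReal.ofReal_natCast, ← ENNReal.ofReal_mul (by positivity)]
              push_cast
              rfl
      have h3 := liminf_le_liminf (f := atTop) (Eventually.of_forall hb)
      rw [h2.liminf_eq] at h3
      exact (lt_of_le_of_lt (h1.trans h3) ENNReal.zero_lt_top).ne
    have h2 : dimH (Q s '' A) ≤ 0 := by
      apply ENNReal.le_of_forall_pos_le_add
      intro e he _
      rw [zero_add]
      exact hzero e he
    exact nonpos_iff_eq_zero.1 h2

end

end RPS48
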