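import Mathlib

set_option autoImplicit false

open Set MeasureTheory Filter Module
open scoped Topology ENNReal NNReal ContDiff

namespace RPS48

variable {n m : ℕ}

theorem exists_proj (q : EuclideanSpace ℝ (Fin n) →L[ℝ] EuclideanSpace ℝ (Fin m))
    (hq : Function.Surjective q) :
    ∃ p : EuclideanSpace ℝ (Fin n) →L[ℝ] (Fin (n - m) → ℝ),
      Function.Bijective (p.prod q) := by
  have hrk := LinearMap.finrank_range_add_finrank_ker (q : EuclideanSpace ℝ (Fin n) →ₗ[ℝ] EuclideanSpace ℝ (Fin m))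
  have hr : LinearMap.range (q : EuclideanSpace ℝ (Fin n) →ₗ[ℝ] EuclideanSpace ℝ (Fin m)) = ⊤ :=
    LinearMap.range_eq_top.2 hq
  rw [hr, finrank_top, finrank_euclideanSpace_fin, finrank_euclideanSpace_fin] at hrk
  obtain ⟨g, hg⟩ := LinearMap.exists_leftInverse_of_injective
    (LinearMap.ker (q : EuclideanSpace ℝ (Fin n) →ₗ[ℝ] EuclideanSpace ℝ (Fin m))).subtype
    (Submodule.ker_subtype _)
  have hd : finrank ℝ (LinearMap.ker (q : EuclideanSpace ℝ (Fin n) →ₗ[ℝ] EuclideanSpace ℝ (Fin m)))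
      = finrank ℝ (Fin (n - m) → ℝ) := by
    rw [finrank_fin_fun]; omega
  let e := LinearEquiv.ofFinrankEq _ _ hd
  let p : EuclideanSpace ℝ (Fin n) →L[ℝ] (Fin (n - m) → ℝ) :=
    LinearMap.toContinuousLinearMap (e.toLinearMap ∘ₗ g)
  refine ⟨p, ?_⟩
  have hinj : Function.Injective (p.prod q) := by
    rw [injective_iff_map_eq_zero]
    intro x hx
    have h1 : p x = 0 := congrArg Prod.fst hx
    have h2 : q x = 0 := congrArg Prod.snd hx
    have h3 : e (g x) = 0 := h1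
    have h4 : g x = 0 := by simpa using h3
    have h5 := LinearMap.congr_fun hg ⟨x, h2⟩
    simp only [LinearMap.comp_apply, Submodule.subtype_apply, LinearMap.id_apply] at h5
    rw [h4] at h5
    exact (congrArg Subtype.val h5).symm
  refine ⟨hinj, ?_⟩
  have hfr : finrank ℝ (EuclideanSpace ℝ (Fin n)) =
      finrank ℝ ((Fin (n - m) → ℝ) × EuclideanSpace ℝ (Fin m)) := by
    rw [finrank_prod, finrank_fin_fun, finrank_euclideanSpace_fin, finrank_euclideanSpace_fin]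
    omega
  exact (LinearMap.injective_iff_surjective_of_finrank_eq_finrank hfr
    (f := ((p.prod q : EuclideanSpace ℝ (Fin n) →L[ℝ] _) : EuclideanSpace ℝ (Fin n) →ₗ[ℝ] _))).1 hinj

theorem exists_section (Q : ℝ → EuclideanSpace ℝ (Fin n) →L[ℝ] EuclideanSpace ℝ (Fin m))
    (s₀ : ℝ) (hs₀ : s₀ ∈ Ioo (0 : ℝ) 1) (hQ : ContinuousOn Q (Icc 0 1))
    (hq : Function.Surjective (Q s₀)) :
    ∃ (α β C : ℝ) (p : EuclideanSpace ℝ (Fin n) →L[ℝ] (Fin (n - m) → ℝ))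
      (L : ℝ → (Fin (n - m) → ℝ) →L[ℝ] EuclideanSpace ℝ (Fin n)),
      α < β ∧ Icc α β ⊆ Icc 0 1 ∧ 1 ≤ C ∧
      (∀ s ∈ Icc α β, ∀ x, p (L s x) = x) ∧ (∀ s ∈ Icc α β, ∀ x, Q s (L s x) = 0) ∧
      (∀ s ∈ Icc α β, ‖L s‖ ≤ C) ∧ (∀ s ∈ Icc α β, ‖Q s‖ ≤ C) := by
  obtain ⟨p, hp⟩ := exists_proj (Q s₀) hq
  let e : EuclideanSpace ℝ (Fin n) ≃L[ℝ] (Fin (n - m) → ℝ) × EuclideanSpace ℝ (Fin m) :=
    (LinearEquiv.ofBijective
      ((p.prod (Q s₀) : EuclideanSpace ℝ (Fin n) →L[ℝ] _) : EuclideanSpace ℝ (Fin n) →ₗ[ℝ] _)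
      hp).toContinuousLinearEquiv
  have he : (e : EuclideanSpace ℝ (Fin n) →L[ℝ] (Fin (n - m) → ℝ) × EuclideanSpace ℝ (Fin m)) =
      p.prod (Q s₀) := by
    ext x : 1
    rfl
  have hQc : ContinuousAt Q s₀ := hQ.continuousAt (Icc_mem_nhds hs₀.1 hs₀.2)
  have hΦ : ContinuousAt (fun s => p.prod (Q s)) s₀ := by
    have h1 : (fun s => p.prod (Q s)) = fun s =>
        (ContinuousLinearMap.inl ℝ (Fin (n - m) → ℝ) (EuclideanSpace ℝ (Fin m))).comp p +
        (ContinuousLinearMap.inr ℝ (Fin (n - m) → ℝ) (EuclideanSpace ℝ (Fin m))).comp (Q s) := by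
      funext s
      ext x : 1
      simp
    rw [h1]
    exact continuousAt_const.add (continuousAt_const.clm_comp hQc)
  have hinv : ContinuousAt (fun s => ContinuousLinearMap.inverse (p.prod (Q s))) s₀ := by
    have h1 : ContinuousAt ContinuousLinearMap.inverse (p.prod (Q s₀)) := by
      rw [← he]
      exact (contDiffAt_map_inverse (𝕜 := ℝ) (n := 0) e).continuousAt
    exact ContinuousAt.comp (f := fun s => p.prod (Q s)) h1 hΦ
  let L : ℝ → (Fin (n - m) → ℝ) →L[ℝ] EuclideanSpace ℝ (Fin n) := fun s =>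
    (ContinuousLinearMap.inverse (p.prod (Q s))).comp
      (ContinuousLinearMap.inl ℝ (Fin (n - m) → ℝ) (EuclideanSpace ℝ (Fin m)))
  have hLc : ContinuousAt L s₀ := hinv.clm_comp continuousAt_const
  have hev : ∀ᶠ s in 𝓝 s₀, p.prod (Q s) ∈ range
      ((↑) : (EuclideanSpace ℝ (Fin n) ≃L[ℝ] (Fin (n - m) → ℝ) × EuclideanSpace ℝ (Fin m)) →
        EuclideanSpace ℝ (Fin n) →L[ℝ] (Fin (n - m) → ℝ) × EuclideanSpace ℝ (Fin m)) := by
    have h1 := ContinuousLinearEquiv.nhds e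
    rw [he] at h1
    exact hΦ.eventually h1
  have hL1 : ∀ᶠ s in 𝓝 s₀, ‖L s‖ < ‖L s₀‖ + 1 :=
    hLc.norm.eventually (gt_mem_nhds (by linarith))
  have hQ1 : ∀ᶠ s in 𝓝 s₀, ‖Q s‖ < ‖Q s₀‖ + 1 :=
    hQc.norm.eventually (gt_mem_nhds (by linarith))
  have hI : ∀ᶠ s in 𝓝 s₀, s ∈ Icc (0 : ℝ) 1 := Icc_mem_nhds hs₀.1 hs₀.2
  have hall := hev.and (hL1.and (hQ1.and hI))
  obtain ⟨r, hr0, hr⟩ := Metric.nhds_basis_closedBall.eventually_iff.1 hall
  rw [Real.closedBall_eq_Icc] at hr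
  have hfac : ∀ s ∈ Icc (s₀ - r) (s₀ + r), ∀ x, (p (L s x), Q s (L s x)) = (x, 0) := by
    intro s hs x
    obtain ⟨e', he'⟩ := (hr hs).1
    have h1 : L s x = e'.symm (x, 0) := by
      change (ContinuousLinearMap.inverse (p.prod (Q s))) (x, 0) = _
      rw [← he', ContinuousLinearMap.inverse_equiv]
      rfl
    have h2 : (p (L s x), Q s (L s x)) = (p.prod (Q s)) (L s x) := rfl
    rw [h2, ← he', h1]
    exact e'.apply_symm_apply _
  refine ⟨s₀ - r, s₀ + r, max (‖L s₀‖ + 1) (‖Q s₀‖ + 1), p, L, by linarith,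
    fun s hs => (hr hs).2.2.2, ?_, ?_, ?_, ?_, ?_⟩
  · exact le_max_of_le_left (by linarith [norm_nonneg (L s₀)])
  · intro s hs x
    exact congrArg Prod.fst (hfac s hs x)
  · intro s hs x
    exact congrArg Prod.snd (hfac s hs x)
  · intro s hs
    exact le_max_of_le_left (hr hs).2.1.le
  · intro s hs
    exact le_max_of_le_right (hr hs).2.2.1.le

end RPS48
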