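import Pool.Agent.RPS48.Stair
import Pool.Agent.RPS48.Digit
import Pool.Agent.RPS48.Ker

/-!
# Smooth reparametrisations of nondegenerate families of linear maps
-/

set_option autoImplicit false

open Set MeasureTheory Filter Module
open scoped Topology ENNReal NNReal ContDiff

namespace RPS48

/-- `P` is a subspace-nondegenerate family of linear maps `ℝ^n → ℝ^m`, `t ∈ [0,1]`: for every linear
subspace `π` of `ℝ^n` one has `dim P_t(π) = min(dim π, m)` for all but finitely many `t ∈ [0,1]`. -/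
def SubspaceNondegenerate {n m : ℕ}
    (P : ℝ → (EuclideanSpace ℝ (Fin n) →ₗ[ℝ] EuclideanSpace ℝ (Fin m))) : Prop :=
  ∀ π : Submodule ℝ (EuclideanSpace ℝ (Fin n)),
    {t ∈ Icc (0 : ℝ) 1 | finrank ℝ (π.map (P t)) ≠ min (finrank ℝ π) m}.Finite

theorem SubspaceNondegenerate.comp {n m : ℕ}
    {Q : ℝ → (EuclideanSpace ℝ (Fin n) →ₗ[ℝ] EuclideanSpace ℝ (Fin m))}
    (hnd : SubspaceNondegenerate Q) (θ : ℝ → ℝ) (hθm : InjOn θ (Icc 0 1))
    (hθ : MapsTo θ (Icc 0 1) (Icc 0 1)) : SubspaceNondegenerate (fun t => Q (θ t)) := by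
  intro π
  refine Set.Finite.of_finite_image ((hnd π).subset ?_) (hθm.mono fun t ht => ht.1)
  rintro _ ⟨t, ⟨ht, ht'⟩, rfl⟩
  exact ⟨hθ ht, ht'⟩

theorem exists_surjective {n m : ℕ} (hmn : m < n)
    (Q : ℝ → (EuclideanSpace ℝ (Fin n) →ₗ[ℝ] EuclideanSpace ℝ (Fin m)))
    (hnd : SubspaceNondegenerate Q) : ∃ s₀ ∈ Ioo (0 : ℝ) 1, Function.Surjective (Q s₀) := by
  obtain ⟨s₀, hs, hs'⟩ := ((Ioo_infinite (by norm_num : (0 : ℝ) < 1)).sdiff (hnd ⊤)).nonempty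
  refine ⟨s₀, hs, ?_⟩
  have h3 : finrank ℝ ((⊤ : Submodule ℝ (EuclideanSpace ℝ (Fin n))).map (Q s₀)) =
      min (finrank ℝ (⊤ : Submodule ℝ (EuclideanSpace ℝ (Fin n)))) m := by
    by_contra h4
    exact hs' ⟨Ioo_subset_Icc_self hs, h4⟩
  rw [finrank_top, finrank_euclideanSpace_fin, min_eq_right hmn.le, Submodule.map_top] at h3
  have h5 : LinearMap.range (Q s₀) = ⊤ := by
    apply Submodule.eq_top_of_finrank_eq
    rw [h3, finrank_euclideanSpace_fin]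
  exact LinearMap.range_eq_top.1 h5

theorem isClosed_K (δ : ℝ) : IsClosed (Kset δ) := by
  apply isClosed_Icc.sdiff
  apply isOpen_iUnion
  intro k
  apply isOpen_biUnion
  intro i _
  exact isOpen_Ioo

theorem reparam {n m : ℕ} (hmn : m < n)
    (Q : ℝ → (EuclideanSpace ℝ (Fin n) →ₗ[ℝ] EuclideanSpace ℝ (Fin m)))
    (hQ : ∀ x, ContinuousOn (fun s => Q s x) (Icc 0 1)) (hnd : SubspaceNondegenerate Q)
    (δ : ℝ) (hδ : 0 < δ) (hδ1 : δ < 1) :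
    ∃ (θ : ℝ → ℝ) (A : Set (EuclideanSpace ℝ (Fin n))) (K : Set ℝ),
      ContDiff ℝ ∞ θ ∧ StrictMonoOn θ (Icc 0 1) ∧ MapsTo θ (Icc 0 1) (Icc 0 1) ∧
      SubspaceNondegenerate (fun t => Q (θ t)) ∧
      MeasurableSet A ∧ ((n - m : ℕ) : ℝ≥0∞) ≤ dimH A ∧
      IsClosed K ∧ K ⊆ Icc 0 1 ∧ ENNReal.ofReal (1 - δ) < volume K ∧
      ∀ t ∈ K, dimH (Q (θ t) '' A) = 0 := by
  obtain ⟨s₀, hs₀, hsur⟩ := exists_surjective hmn Q hnd
  obtain ⟨R, hR⟩ : ∃ R : ℝ → EuclideanSpace ℝ (Fin n) →L[ℝ] EuclideanSpace ℝ (Fin m),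
      ∀ s x, R s x = Q s x := ⟨fun s => LinearMap.toContinuousLinearMap (Q s), fun s x => rfl⟩
  have hRc : ContinuousOn R (Icc 0 1) := by
    rw [continuousOn_clm_apply]
    intro x
    simp only [hR]
    exact hQ x
  have hsur' : Function.Surjective (R s₀) := by
    intro y
    obtain ⟨x, hx⟩ := hsur y
    exact ⟨x, (hR s₀ x).trans hx⟩
  obtain ⟨α, β, C, p, L, hαβ, hsub, hC, hpL, hQL, hL, hQb⟩ := exists_section R s₀ hs₀ hRc hsur'
  have hunif := isCompact_Icc.uniformContinuousOn_of_continuous (hRc.mono hsub)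
  rw [Metric.uniformContinuousOn_iff] at hunif
  have hmod : ∀ j : ℕ, ∃ η : ℝ, 0 < η ∧ ∀ s ∈ Icc α β, ∀ s' ∈ Icc α β, |s - s'| ≤ η →
      ‖R s - R s'‖ ≤ 1 / 2 ^ ax (j + 1) := by
    intro j
    obtain ⟨η, hη, h⟩ := hunif (1 / 2 ^ ax (j + 1)) (by positivity)
    refine ⟨η / 2, by linarith, fun s hs s' hs' hss => ?_⟩
    have h1 := h s hs s' hs' (by rw [Real.dist_eq]; linarith)
    rw [dist_eq_norm] at h1
    exact h1.le
  choose η hη hmod using hmod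
  obtain ⟨θ, σ, hθs, hθm, hθI, hσ, hθK⟩ := staircase α β δ hαβ hδ η hη
  obtain ⟨A, hAm, hAd, hA⟩ := exists_set R p L (Icc α β) C hC hpL hQL hL hQb σ hσ
  have hθI' : MapsTo θ (Icc 0 1) (Icc 0 1) := fun t ht => hsub (hθI ht)
  refine ⟨θ, A, Kset δ, hθs, hθm, hθI', hnd.comp θ hθm.injOn hθI', hAm, hAd, isClosed_K δ,
    fun t ht => ht.1, volume_K δ hδ hδ1, ?_⟩
  intro t ht
  have h1 : (R (θ t) : EuclideanSpace ℝ (Fin n) → EuclideanSpace ℝ (Fin m)) = Q (θ t) := by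
    funext x
    exact hR _ x
  rw [← h1]
  apply hA (θ t) (hθI ht.1)
  apply (hθK t ht).mono
  intro j hj
  exact hmod j _ (hθI ht.1) _ (hσ j) hj

end RPS48
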