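import Mathlib

set_option autoImplicit false

open Set MeasureTheory Filter
open scoped Topology ENNReal NNReal ContDiff

namespace RPS48

/-- Small multiples of smooth compactly supported functions sum to a smooth function. -/
theorem exists_coeff (f : ℕ → ℝ → ℝ) (hf : ∀ k, ContDiff ℝ ∞ (f k))
    (hc : ∀ k, HasCompactSupport (f k)) :
    ∃ c : ℕ → ℝ, (∀ k, 0 < c k) ∧ ∀ ε : ℕ → ℝ, (∀ k, 0 ≤ ε k) → (∀ k, ε k ≤ c k) →
      ContDiff ℝ ∞ (fun x => ∑' k, ε k * f k x) := by
  have h1 : ∀ k i : ℕ, ∃ R : ℝ, 0 ≤ R ∧ ∀ x, ‖iteratedFDeriv ℝ i (f k) x‖ ≤ R := by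
    intro k i
    have h2 : BddAbove (range fun x => ‖iteratedFDeriv ℝ i (f k) x‖) := by
      apply ((hf k).continuous_iteratedFDeriv (mod_cast le_top)).norm.bddAbove_range_of_hasCompactSupport
      apply HasCompactSupport.comp_left _ norm_zero
      apply (hc k).iteratedFDeriv
    obtain ⟨R, hR⟩ := h2
    exact ⟨max R 0, le_max_right _ _, fun x => (hR ⟨x, rfl⟩).trans (le_max_left _ _)⟩
  choose R hR0 hR using h1
  have hS0 : ∀ k, 0 ≤ ∑ i ∈ Finset.range (k + 1), R k i :=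
    fun k => Finset.sum_nonneg fun i _ => hR0 k i
  refine ⟨fun k => (1 / 2) ^ k / (1 + ∑ i ∈ Finset.range (k + 1), R k i), fun k => ?_, ?_⟩
  · have := hS0 k
    positivity
  intro ε hε0 hε
  apply contDiff_tsum_of_eventually (v := fun _ k => (1 / 2 : ℝ) ^ k)
  · intro k
    exact contDiff_const.mul (hf k)
  · intro i _
    exact summable_geometric_two
  · intro i _
    rw [Nat.cofinite_eq_atTop]
    filter_upwards [eventually_ge_atTop i] with k hk x
    have h3 : iteratedFDeriv ℝ i (fun x => ε k * f k x) x = ε k • iteratedFDeriv ℝ i (f k) x := by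
      have := iteratedFDeriv_const_smul_apply (𝕜 := ℝ) (i := i) (a := ε k) (f := f k) (x := x)
        (((hf k).of_le (mod_cast le_top)).contDiffAt)
      simpa [Pi.smul_def, smul_eq_mul] using this
    rw [h3, norm_smul, Real.norm_of_nonneg (hε0 k)]
    have h4 : ‖iteratedFDeriv ℝ i (f k) x‖ ≤ 1 + ∑ i ∈ Finset.range (k + 1), R k i := by
      have h5 : R k i ≤ ∑ i ∈ Finset.range (k + 1), R k i :=
        Finset.single_le_sum (f := fun i => R k i) (fun j _ => hR0 k j)
          (Finset.mem_range.2 (by omega))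
      linarith [hR k i x]
    have h6 : 0 < 1 + ∑ i ∈ Finset.range (k + 1), R k i := by linarith [hS0 k]
    calc ε k * ‖iteratedFDeriv ℝ i (f k) x‖
        ≤ (1 / 2) ^ k / (1 + ∑ i ∈ Finset.range (k + 1), R k i) *
          (1 + ∑ i ∈ Finset.range (k + 1), R k i) := by
          apply mul_le_mul (hε k) h4 (norm_nonneg _)
          positivity
      _ = (1 / 2) ^ k := by field_simp

/-- The smooth step function with steps at the dyadic points of level `k`. -/
noncomputable def u (δ : ℝ) (k : ℕ) (t : ℝ) : ℝ :=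
  ∑ i ∈ Finset.range (2 ^ k), Real.smoothTransition ((t - i / 2 ^ k) / (δ / 4 * (1 / 4) ^ k))

/-- The steps of level `k`. -/
def G (δ : ℝ) (k : ℕ) : Set ℝ :=
  ⋃ i ∈ Finset.range (2 ^ k), Ioo ((i : ℝ) / 2 ^ k) (i / 2 ^ k + δ / 4 * (1 / 4) ^ k)

/-- The number of steps of level `k` below `t`. -/
noncomputable def cnt (δ : ℝ) (k : ℕ) (t : ℝ) : ℕ :=
  ((Finset.range (2 ^ k)).filter fun i : ℕ => (i : ℝ) / 2 ^ k + δ / 4 * (1 / 4) ^ k ≤ t).card

theorem u_nonneg (δ : ℝ) (k : ℕ) (t : ℝ) : 0 ≤ u δ k t :=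
  Finset.sum_nonneg fun _ _ => Real.smoothTransition.nonneg _

theorem u_le (δ : ℝ) (k : ℕ) (t : ℝ) : u δ k t ≤ 2 ^ k := by
  have h1 : u δ k t ≤ ∑ i ∈ Finset.range (2 ^ k), (1 : ℝ) :=
    Finset.sum_le_sum fun _ _ => Real.smoothTransition.le_one _
  simpa using h1

theorem u_mono (δ : ℝ) (hδ : 0 < δ) (k : ℕ) : Monotone (u δ k) := by
  intro s t hst
  apply Finset.sum_le_sum
  intro i _
  apply Real.smoothTransition.monotone
  apply div_le_div_of_nonneg_right (by linarith) (by positivity)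

theorem u_lt (δ : ℝ) (hδ : 0 < δ) (k i : ℕ) (hi : i < 2 ^ k) (s t : ℝ)
    (h1 : s ≤ i / 2 ^ k) (h2 : (i : ℝ) / 2 ^ k < t) : u δ k s < u δ k t := by
  apply Finset.sum_lt_sum
  · intro i _
    apply Real.smoothTransition.monotone
    apply div_le_div_of_nonneg_right (by linarith) (by positivity)
  · refine ⟨i, Finset.mem_range.2 hi, ?_⟩
    rw [Real.smoothTransition.zero_of_nonpos]
    · apply Real.smoothTransition.pos_of_pos
      apply div_pos (by linarith) (by positivity)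
    · apply div_nonpos_of_nonpos_of_nonneg (by linarith) (by positivity)

theorem u_eq (δ : ℝ) (hδ : 0 < δ) (k : ℕ) (t : ℝ) (ht : t ∉ G δ k) : u δ k t = cnt δ k t := by
  rw [u, cnt, Finset.card_filter]
  push_cast
  apply Finset.sum_congr rfl
  intro i hi
  have hg : 0 < δ / 4 * (1 / 4 : ℝ) ^ k := by positivity
  split_ifs with h
  · apply Real.smoothTransition.one_of_one_le
    rw [le_div_iff₀ hg]
    linarith
  · apply Real.smoothTransition.zero_of_nonpos
    apply div_nonpos_of_nonpos_of_nonneg _ hg.le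
    by_contra h3
    apply ht
    simp only [G, mem_iUnion]
    exact ⟨i, hi, by constructor <;> linarith⟩

theorem cnt_mono (δ : ℝ) (k : ℕ) : Monotone (cnt δ k) := by
  intro s t hst
  apply Finset.card_le_card
  intro i hi
  rw [Finset.mem_filter] at hi ⊢
  exact ⟨hi.1, hi.2.trans hst⟩

theorem cnt_le (δ : ℝ) (k : ℕ) (t : ℝ) : cnt δ k t ≤ 2 ^ k := by
  have := Finset.card_filter_le (Finset.range (2 ^ k))
    (fun i : ℕ => (i : ℝ) / 2 ^ k + δ / 4 * (1 / 4) ^ k ≤ t)
  simpa [cnt] using this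

/-- The total number of steps of level at most `k` below `t`. -/
noncomputable def tot (δ : ℝ) (k : ℕ) (t : ℝ) : ℕ := ∑ j ∈ Finset.range (k + 1), cnt δ j t

theorem tot_le (δ : ℝ) (k : ℕ) (t : ℝ) : tot δ k t ≤ (k + 1) * 2 ^ k := by
  have h1 : tot δ k t ≤ ∑ j ∈ Finset.range (k + 1), 2 ^ k :=
    Finset.sum_le_sum fun j hj => (cnt_le δ j t).trans
      (Nat.pow_le_pow_right (by norm_num) (by rw [Finset.mem_range] at hj; omega))
  simpa using h1

theorem cnt_eq_of_tot (δ : ℝ) (k : ℕ) (s t : ℝ) (h : tot δ k s = tot δ k t) (j : ℕ) (hj : j ≤ k) :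
    cnt δ j s = cnt δ j t := by
  rcases le_total s t with hst | hst
  · have h1 := (Finset.sum_eq_sum_iff_of_le (fun i _ => cnt_mono δ i hst)).1 h
    exact h1 j (Finset.mem_range.2 (by omega))
  · have h1 := (Finset.sum_eq_sum_iff_of_le (fun i _ => cnt_mono δ i hst)).1 h.symm
    exact (h1 j (Finset.mem_range.2 (by omega))).symm

theorem volume_G (δ : ℝ) (k : ℕ) :
    volume (G δ k) ≤ ENNReal.ofReal (δ / 4 * (1 / 2) ^ k) := by
  calc volume (G δ k) ≤ ∑ i ∈ Finset.range (2 ^ k),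
        volume (Ioo ((i : ℝ) / 2 ^ k) (i / 2 ^ k + δ / 4 * (1 / 4) ^ k)) :=
        measure_biUnion_finset_le _ _
    _ = ∑ i ∈ Finset.range (2 ^ k), ENNReal.ofReal (δ / 4 * (1 / 4) ^ k) := by
        apply Finset.sum_congr rfl
        intro i _
        rw [Real.volume_Ioo]
        congr 1
        ring
    _ = ENNReal.ofReal (δ / 4 * (1 / 2) ^ k) := by
        rw [Finset.sum_const, Finset.card_range, nsmul_eq_mul, ← ENNReal.ofReal_natCast,
          ← ENNReal.ofReal_mul (by positivity)]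
        congr 1
        push_cast
        have h1 : (1 / 4 : ℝ) ^ k = (1 / 2) ^ k * (1 / 2) ^ k := by
          rw [← mul_pow]; norm_num
        have h2 : (2 : ℝ) ^ k * (1 / 2) ^ k = 1 := by
          rw [← mul_pow]; norm_num
        rw [h1]
        linear_combination (δ / 4 * (1 / 2) ^ k) * h2

/-- The set where the staircase is flat. -/
def Kset (δ : ℝ) : Set ℝ := Icc 0 1 \ ⋃ k, G δ k

theorem measurableSet_K (δ : ℝ) : MeasurableSet (Kset δ) := by
  apply measurableSet_Icc.diff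
  apply MeasurableSet.iUnion
  intro k
  apply Finset.measurableSet_biUnion
  intro i _
  exact measurableSet_Ioo

theorem volume_K (δ : ℝ) (hδ : 0 < δ) (hδ1 : δ < 1) : ENNReal.ofReal (1 - δ) < volume (Kset δ) := by
  have h1 : volume (⋃ k, G δ k) ≤ ENNReal.ofReal (δ / 2) := by
    calc volume (⋃ k, G δ k) ≤ ∑' k, volume (G δ k) := measure_iUnion_le _
      _ ≤ ∑' k, ENNReal.ofReal (δ / 4 * (1 / 2) ^ k) := ENNReal.tsum_le_tsum (volume_G δ)
      _ = ENNReal.ofReal (∑' k, δ / 4 * (1 / 2) ^ k) := by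
          rw [ENNReal.ofReal_tsum_of_nonneg]
          · intro n; positivity
          · exact summable_geometric_two.mul_left _
      _ = ENNReal.ofReal (δ / 2) := by
          rw [tsum_mul_left, tsum_geometric_two]
          congr 1
          ring
  have h2 : volume (Icc (0 : ℝ) 1) - volume (⋃ k, G δ k) ≤ volume (Kset δ) := le_measure_sdiff
  have h3 : ENNReal.ofReal (1 - δ / 2) ≤ volume (Kset δ) := by
    refine le_trans ?_ h2
    rw [Real.volume_Icc, ENNReal.ofReal_sub _ (by positivity)]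
    simp only [sub_zero]
    exact tsub_le_tsub_left h1 _
  refine lt_of_lt_of_le ?_ h3
  rw [ENNReal.ofReal_lt_ofReal_iff (by linarith)]
  linarith

theorem u_contDiff (δ : ℝ) (k : ℕ) : ContDiff ℝ ∞ (u δ k) := by
  apply ContDiff.sum
  intro i _
  apply Real.smoothTransition.contDiff.comp
  exact (contDiff_id.sub contDiff_const).div_const _

/-- A smooth strictly increasing function which is, off a set of small measure, infinitely often
extremely close to the terms of a sequence. -/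
theorem staircase (α β δ : ℝ) (hαβ : α < β) (hδ : 0 < δ) (η : ℕ → ℝ) (hη : ∀ j, 0 < η j) :
    ∃ (θ : ℝ → ℝ) (σ : ℕ → ℝ), ContDiff ℝ ∞ θ ∧ StrictMonoOn θ (Icc 0 1) ∧
      MapsTo θ (Icc 0 1) (Icc α β) ∧ (∀ j, σ j ∈ Icc α β) ∧
      ∀ t ∈ Kset δ, ∃ᶠ j in atTop, |θ t - σ j| ≤ η j := by
  classical
  obtain ⟨χ, hχs, hχc, hχ1⟩ : ∃ χ : ℝ → ℝ, ContDiff ℝ ∞ χ ∧ HasCompactSupport χ ∧
      ∀ t ∈ Icc (0 : ℝ) 1, χ t = 1 := by
    let f : ContDiffBump (0 : ℝ) := ⟨2, 3, by norm_num, by norm_num⟩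
    refine ⟨f, f.contDiff, f.hasCompactSupport, fun t ht => ?_⟩
    apply f.one_of_mem_closedBall
    rw [mem_closedBall_zero_iff, Real.norm_eq_abs, abs_of_nonneg ht.1]
    exact ht.2.trans (show (1 : ℝ) ≤ 2 by norm_num)
  obtain ⟨c, hc, hcs⟩ := exists_coeff (fun k t => χ t * u δ k t)
    (fun k => hχs.mul (u_contDiff δ k)) (fun k => hχc.mul_right)
  obtain ⟨M, hM0, hM⟩ : ∃ M : ℕ → ℝ, (∀ k, 0 < M k) ∧
      ∀ k q, q ≤ (k + 1) * 2 ^ k → M k ≤ η (Nat.pair k q) := by
    have hne : ∀ k : ℕ, (Finset.range ((k + 1) * 2 ^ k + 1)).Nonempty :=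
      fun k => ⟨0, Finset.mem_range.2 (by omega)⟩
    refine ⟨fun k => (Finset.range ((k + 1) * 2 ^ k + 1)).inf' (hne k)
      (fun q => η (Nat.pair k q)), fun k => ?_, fun k q hq => ?_⟩
    · rw [Finset.lt_inf'_iff]
      intro q _
      exact hη _
    · exact Finset.inf'_le (fun q => η (Nat.pair k q)) (Finset.mem_range.2 (by omega))
  obtain ⟨w, hw0, hw⟩ : ∃ w : ℕ → ℝ, (∀ i, 0 < w i) ∧ ∀ i k, k ≤ i → w i ≤ M k ∧ w i ≤ β - α := by
    have hne : ∀ i : ℕ, (Finset.range (i + 1)).Nonempty :=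
      fun i => ⟨0, Finset.mem_range.2 (by omega)⟩
    refine ⟨fun i => (Finset.range (i + 1)).inf' (hne i)
      (fun k => min (M k) (β - α)), fun i => ?_, fun i k hk => ?_⟩
    · rw [Finset.lt_inf'_iff]
      intro q _
      exact lt_min (hM0 q) (by linarith)
    · have h1 := Finset.inf'_le (fun k => min (M k) (β - α))
        (Finset.mem_range.2 (Nat.lt_succ_of_le hk))
      exact ⟨h1.trans (min_le_left _ _), h1.trans (min_le_right _ _)⟩
  set ε : ℕ → ℝ := fun i => min (c i) (w i / 4 ^ (i + 1)) with hε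
  have hε0 : ∀ i, 0 < ε i := fun i => lt_min (hc i) (div_pos (hw0 i) (by positivity))
  have hε1 : ∀ i, ε i * 2 ^ i ≤ w i * (1 / 2) ^ (i + 2) := by
    intro i
    have h1 : ε i ≤ w i / 4 ^ (i + 1) := min_le_right _ _
    have h2 : w i / 4 ^ (i + 1) * 2 ^ i = w i * (1 / 2) ^ (i + 2) := by
      have h3 : (4 : ℝ) ^ (i + 1) = 2 ^ i * 2 ^ (i + 2) := by
        rw [← pow_add, show (4 : ℝ) = 2 ^ 2 by norm_num, ← pow_mul]
        congr 1
        ring
      rw [h3, one_div, inv_pow]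
      have h4 : (2 : ℝ) ^ i ≠ 0 := by positivity
      have h5 : (2 : ℝ) ^ (i + 2) ≠ 0 := by positivity
      field_simp
    rw [← h2]
    exact mul_le_mul_of_nonneg_right h1 (by positivity)
  have hgeo : ∀ C : ℝ, HasSum (fun i : ℕ => C * (1 / 2 : ℝ) ^ (i + 2)) (C / 2) := by
    intro C
    have h1 := (hasSum_geometric_two.mul_left (C / 4))
    have h2 : (fun i : ℕ => C * (1 / 2 : ℝ) ^ (i + 2)) = fun i : ℕ => C / 4 * (1 / 2) ^ i := by
      funext i
      rw [pow_add]
      ring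
    rw [h2]
    have h3 : C / 4 * 2 = C / 2 := by ring
    rw [← h3]
    exact h1
  have hsum : ∀ t, Summable fun i => ε i * u δ i t := by
    intro t
    apply Summable.of_nonneg_of_le (fun i => mul_nonneg (hε0 i).le (u_nonneg δ i t)) _
      (hgeo (β - α)).summable
    intro i
    calc ε i * u δ i t ≤ ε i * 2 ^ i := mul_le_mul_of_nonneg_left (u_le δ i t) (hε0 i).le
      _ ≤ w i * (1 / 2) ^ (i + 2) := hε1 i
      _ ≤ (β - α) * (1 / 2) ^ (i + 2) :=
        mul_le_mul_of_nonneg_right (hw i 0 (Nat.zero_le _)).2 (by positivity)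
  set θ : ℝ → ℝ := fun t => α + ∑' i, ε i * (χ t * u δ i t) with hθ
  have hθ1 : ∀ t ∈ Icc (0 : ℝ) 1, θ t = α + ∑' i, ε i * u δ i t := by
    intro t ht
    simp only [hθ, hχ1 t ht, one_mul]
  have hmaps : MapsTo θ (Icc 0 1) (Icc α β) := by
    intro t ht
    rw [hθ1 t ht]
    constructor
    · have h1 : 0 ≤ ∑' i, ε i * u δ i t := tsum_nonneg fun i =>
        mul_nonneg (hε0 i).le (u_nonneg δ i t)
      linarith
    · have h1 : ∑' i, ε i * u δ i t ≤ (β - α) / 2 := by
        rw [← (hgeo (β - α)).tsum_eq]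
        apply (hsum t).tsum_le_tsum _ (hgeo (β - α)).summable
        intro i
        calc ε i * u δ i t ≤ ε i * 2 ^ i := mul_le_mul_of_nonneg_left (u_le δ i t) (hε0 i).le
          _ ≤ w i * (1 / 2) ^ (i + 2) := hε1 i
          _ ≤ (β - α) * (1 / 2) ^ (i + 2) :=
            mul_le_mul_of_nonneg_right (hw i 0 (Nat.zero_le _)).2 (by positivity)
      linarith
  have hclose : ∀ k, ∀ s ∈ Kset δ, ∀ t ∈ Kset δ, tot δ k s = tot δ k t → |θ s - θ t| ≤ M k := by
    intro k s hs t ht hst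
    rw [hθ1 s hs.1, hθ1 t ht.1]
    have h1 : α + ∑' i, ε i * u δ i s - (α + ∑' i, ε i * u δ i t) =
        ∑' i, ε i * (u δ i s - u δ i t) := by
      rw [add_sub_add_left_eq_sub, ← (hsum s).tsum_sub (hsum t)]
      congr 1
      funext i
      ring
    rw [h1]
    have h2 : ∀ i, ‖ε i * (u δ i s - u δ i t)‖ ≤ M k * (1 / 2) ^ (i + 2) := by
      intro i
      rw [norm_mul, Real.norm_of_nonneg (hε0 i).le, Real.norm_eq_abs]
      rcases le_or_gt i k with hik | hik
      · have h3 : ∀ x ∈ Kset δ, x ∉ G δ i := fun x hx hxi => hx.2 (mem_iUnion.2 ⟨i, hxi⟩)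
        rw [u_eq δ hδ i s (h3 s hs), u_eq δ hδ i t (h3 t ht), cnt_eq_of_tot δ k s t hst i hik,
          sub_self, abs_zero, mul_zero]
        have := hM0 k
        positivity
      · have h3 : |u δ i s - u δ i t| ≤ 2 ^ i := by
          rw [abs_sub_le_iff]
          constructor <;> linarith [u_nonneg δ i s, u_nonneg δ i t, u_le δ i s, u_le δ i t]
        calc ε i * |u δ i s - u δ i t| ≤ ε i * 2 ^ i := mul_le_mul_of_nonneg_left h3 (hε0 i).le
          _ ≤ w i * (1 / 2) ^ (i + 2) := hε1 i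
          _ ≤ M k * (1 / 2) ^ (i + 2) :=
            mul_le_mul_of_nonneg_right (hw i k hik.le).1 (by positivity)
    have h3 := tsum_of_norm_bounded (hgeo (M k)) h2
    rw [Real.norm_eq_abs] at h3
    have := hM0 k
    linarith
  have h0 : (0 : ℝ) ∈ Icc (0 : ℝ) 1 := ⟨le_rfl, zero_le_one⟩
  refine ⟨θ, fun j => if h : ∃ t ∈ Kset δ, tot δ j.unpair.1 t = j.unpair.2 then θ h.choose
    else θ 0, ?_, ?_, hmaps, ?_, ?_⟩
  · exact contDiff_const.add (hcs ε (fun i => (hε0 i).le) (fun i => min_le_left _ _))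
  · intro s hs t ht hst
    rw [hθ1 s hs, hθ1 t ht]
    apply add_lt_add_right
    obtain ⟨k, hk⟩ := exists_pow_lt_of_lt_one (sub_pos.2 hst) (by norm_num : (1 / 2 : ℝ) < 1)
    have h2k : (0 : ℝ) < 2 ^ k := by positivity
    have h1 : s ≤ (⌈s * 2 ^ k⌉₊ : ℝ) / 2 ^ k := by
      rw [le_div_iff₀ h2k]
      exact Nat.le_ceil _
    have h2 : (⌈s * 2 ^ k⌉₊ : ℝ) / 2 ^ k < t := by
      rw [div_lt_iff₀ h2k]
      have h3 := Nat.ceil_lt_add_one (mul_nonneg hs.1 h2k.le)
      have h4 : (1 : ℝ) < (t - s) * 2 ^ k := by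
        have h5 : (1 / 2 : ℝ) ^ k * 2 ^ k = 1 := by
          rw [← mul_pow]; norm_num
        rw [← h5]
        exact mul_lt_mul_of_pos_right hk h2k
      linarith
    have h3 : ⌈s * 2 ^ k⌉₊ < 2 ^ k := by
      have h4 : (⌈s * 2 ^ k⌉₊ : ℝ) < 2 ^ k := by
        have := (div_lt_iff₀ h2k).1 h2
        nlinarith [ht.2]
      exact_mod_cast h4
    apply Summable.tsum_lt_tsum (i := k) _ _ (hsum s) (hsum t)
    · intro i
      exact mul_le_mul_of_nonneg_left (u_mono δ hδ i hst.le) (hε0 i).le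
    · exact mul_lt_mul_of_pos_left (u_lt δ hδ k _ h3 s t h1 h2) (hε0 k)
  · intro j
    dsimp only
    split_ifs with h
    · exact hmaps h.choose_spec.1.1
    · exact hmaps h0
  · intro t ht
    rw [frequently_atTop]
    intro N
    refine ⟨Nat.pair N (tot δ N t), Nat.left_le_pair _ _, ?_⟩
    have h : ∃ s ∈ Kset δ, tot δ (Nat.pair N (tot δ N t)).unpair.1 s =
        (Nat.pair N (tot δ N t)).unpair.2 := ⟨t, ht, by rw [Nat.unpair_pair]⟩
    dsimp only
    rw [dif_pos h]
    refine (hclose N t ht _ h.choose_spec.1 ?_).trans (hM N _ (tot_le δ N t))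
    have h2 : tot δ N h.choose = tot δ N t := by
      have h3 := h.choose_spec.2
      have h4 : (Nat.pair N (tot δ N t)).unpair = (N, tot δ N t) := Nat.unpair_pair _ _
      exact (congrArg (fun m => tot δ m h.choose) (congrArg Prod.fst h4)).symm.trans
        (h3.trans (congrArg Prod.snd h4))
    exact h2.symm

end RPS48
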