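import Mathlib

/-!
# Osculating families: the first `m` Taylor coefficients of a polynomial of degree less than `n`
-/

set_option autoImplicit false

open Polynomial Module Set

namespace RPS48

/-- If `(X - s)^k` divides `f`, `k ≥ 1`, and `g f' = g' f`, then `g(s) = 0`. -/
theorem root_of_wronskian {f g : ℝ[X]} (hf : f ≠ 0) (s : ℝ) (hs : f.IsRoot s)
    (h : g * derivative f = derivative g * f) : g.IsRoot s := by
  by_contra hg
  have hg0 : g ≠ 0 := by
    rintro rfl
    exact hg (by simp)
  have hf' : derivative f ≠ 0 := by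
    intro h0
    have h1 := derivative_eq_zero.1 h0
    rw [natDegree_eq_zero] at h1
    obtain ⟨c, rfl⟩ := h1
    rw [IsRoot.def, eval_C] at hs
    exact hf (by rw [hs, C_0])
  have hgf : g * derivative f ≠ 0 := mul_ne_zero hg0 hf'
  have h1 : (g * derivative f).rootMultiplicity s = f.rootMultiplicity s - 1 := by
    rw [rootMultiplicity_mul hgf, rootMultiplicity_eq_zero hg,
      derivative_rootMultiplicity_of_root hs, zero_add]
  have h2 : f.rootMultiplicity s ≤ (derivative g * f).rootMultiplicity s := by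
    rw [rootMultiplicity_mul (h ▸ hgf)]
    omega
  have h3 : 0 < f.rootMultiplicity s := (rootMultiplicity_pos hf).2 hs
  rw [← h, h1] at h2
  omega

/-- In a `k`-dimensional space of polynomials only finitely many `(X - s)^k` divide nonzero
elements. -/
theorem finite_osculation (k : ℕ) : ∀ π : Submodule ℝ ℝ[X], FiniteDimensional ℝ π →
    finrank ℝ π ≤ k → {s : ℝ | ∃ f ∈ π, f ≠ 0 ∧ (X - C s) ^ k ∣ f}.Finite := by
  induction k with
  | zero =>
    intro π hfd hπ
    have h1 : π = ⊥ := by
      rw [← Submodule.finrank_eq_zero (R := ℝ)]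
      omega
    subst h1
    apply Set.Finite.subset Set.finite_empty
    rintro s ⟨f, hf, hf0, -⟩
    exact hf0 ((Submodule.mem_bot ℝ).1 hf)
  | succ k ih =>
    intro π hfd hπ
    by_cases hbot : π = ⊥
    · subst hbot
      apply Set.Finite.subset Set.finite_empty
      rintro s ⟨f, hf, hf0, -⟩
      exact hf0 ((Submodule.mem_bot ℝ).1 hf)
    obtain ⟨g, hg, hg0⟩ := Submodule.exists_mem_ne_zero_of_ne_bot hbot
    let φ : ℝ[X] →ₗ[ℝ] ℝ[X] :=
      { toFun := fun f => g * derivative f - derivative g * f
        map_add' := fun a b => by rw [derivative_add]; ring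
        map_smul' := fun c a => by
          rw [derivative_smul, RingHom.id_apply, mul_smul_comm, mul_smul_comm, smul_sub] }
    have hφg : φ g = 0 := by
      change g * derivative g - derivative g * g = 0
      ring
    have hrk : finrank ℝ (π.map φ) ≤ k := by
      have h1 := LinearMap.finrank_range_add_finrank_ker (φ.domRestrict π)
      have h2 : LinearMap.range (φ.domRestrict π) = π.map φ := by
        ext y
        simp [Submodule.mem_map]
      rw [h2] at h1
      have h3 : LinearMap.ker (φ.domRestrict π) ≠ ⊥ := by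
        intro h4
        have h5 : (⟨g, hg⟩ : π) ∈ LinearMap.ker (φ.domRestrict π) := hφg
        rw [h4, Submodule.mem_bot] at h5
        exact hg0 (congrArg Subtype.val h5)
      have h6 : finrank ℝ (LinearMap.ker (φ.domRestrict π)) ≠ 0 :=
        fun h7 => h3 (Submodule.finrank_eq_zero.1 h7)
      omega
    have hfin := ih (π.map φ) inferInstance hrk
    refine (hfin.union (g.roots.toFinset.finite_toSet)).subset ?_
    rintro s ⟨f, hf, hf0, hdvd⟩
    by_cases h0 : φ f = 0
    · right
      have h1 : g * derivative f = derivative g * f := sub_eq_zero.1 h0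
      have h2 : f.IsRoot s := by
        rw [← dvd_iff_isRoot]
        exact (dvd_pow_self _ (Nat.succ_ne_zero k)).trans hdvd
      have h3 := root_of_wronskian hf0 s h2 h1
      simpa [hg0] using h3
    · left
      refine ⟨φ f, Submodule.mem_map_of_mem hf, h0, ?_⟩
      change (X - C s) ^ k ∣ g * derivative f - derivative g * f
      exact dvd_sub (Dvd.dvd.mul_left (pow_sub_one_dvd_derivative_of_pow_dvd hdvd) _)
        (Dvd.dvd.mul_left ((pow_dvd_pow _ (Nat.le_succ k)).trans hdvd) _)

/-- the polynomial with coefficients `x` -/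
noncomputable def poly (n : ℕ) : EuclideanSpace ℝ (Fin n) →ₗ[ℝ] ℝ[X] :=
  ∑ j : Fin n, (monomial (j : ℕ)) ∘ₗ (EuclideanSpace.proj j : EuclideanSpace ℝ (Fin n) →L[ℝ] ℝ).toLinearMap

theorem poly_apply (n : ℕ) (x : EuclideanSpace ℝ (Fin n)) :
    poly n x = ∑ j : Fin n, monomial (j : ℕ) (x j) := by
  simp [poly]

theorem poly_coeff (n : ℕ) (x : EuclideanSpace ℝ (Fin n)) (i : Fin n) :
    (poly n x).coeff i = x i := by
  rw [poly_apply, finsetSum_coeff]
  simp only [coeff_monomial]
  rw [Finset.sum_eq_single i]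
  · simp
  · intro j _ hj
    rw [if_neg]
    intro h
    exact hj (Fin.ext h)
  · simp

theorem poly_injective (n : ℕ) : Function.Injective (poly n) := by
  intro x y h
  ext i
  rw [← poly_coeff, ← poly_coeff, h]

/-- the first `m` Taylor coefficients at `s` -/
noncomputable def osc (n m : ℕ) (s : ℝ) :
    EuclideanSpace ℝ (Fin n) →ₗ[ℝ] EuclideanSpace ℝ (Fin m) :=
  (EuclideanSpace.equiv (Fin m) ℝ).symm.toLinearEquiv.toLinearMap ∘ₗ
    LinearMap.pi (fun i : Fin m => leval s ∘ₗ hasseDeriv (i : ℕ) ∘ₗ poly n)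

theorem osc_apply (n m : ℕ) (s : ℝ) (x : EuclideanSpace ℝ (Fin n)) (i : Fin m) :
    osc n m s x i = (hasseDeriv (i : ℕ) (poly n x)).eval s := rfl

theorem dvd_of_osc (n m : ℕ) (s : ℝ) (x : EuclideanSpace ℝ (Fin n)) (h : osc n m s x = 0) :
    (X - C s) ^ m ∣ poly n x := by
  rw [X_sub_C_pow_dvd_iff, X_pow_dvd_iff]
  intro d hd
  rw [← taylor_apply, taylor_coeff]
  have h1 := osc_apply n m s x ⟨d, hd⟩
  rw [h] at h1
  exact h1.symm

theorem finrank_map_of_inj {n m : ℕ}
    (f : EuclideanSpace ℝ (Fin n) →ₗ[ℝ] EuclideanSpace ℝ (Fin m))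
    (π : Submodule ℝ (EuclideanSpace ℝ (Fin n))) (h : ∀ x ∈ π, f x = 0 → x = 0) :
    finrank ℝ (π.map f) = finrank ℝ π := by
  have h1 : LinearMap.range (f.domRestrict π) = π.map f := by
    ext y
    simp [Submodule.mem_map]
  rw [← h1]
  apply LinearMap.finrank_range_of_inj
  rw [injective_iff_map_eq_zero]
  intro x hx
  exact Subtype.ext (h x x.2 hx)

theorem osc_rank (n m : ℕ) (π : Submodule ℝ (EuclideanSpace ℝ (Fin n))) (hk : finrank ℝ π ≤ m) :
    {s : ℝ | finrank ℝ (π.map (osc n m s)) ≠ finrank ℝ π}.Finite := by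
  have h1 := finite_osculation (finrank ℝ π) (π.map (poly n)) inferInstance
    (Submodule.finrank_map_le _ _)
  refine h1.subset ?_
  intro s hs
  by_contra h2
  apply hs
  apply finrank_map_of_inj
  intro x hx h3
  by_contra h4
  apply h2
  refine ⟨poly n x, Submodule.mem_map_of_mem hx, ?_, (pow_dvd_pow _ hk).trans (dvd_of_osc n m s x h3)⟩
  intro h5
  exact h4 (poly_injective n (h5.trans (map_zero _).symm))

theorem osc_nondegenerate (n m : ℕ) (π : Submodule ℝ (EuclideanSpace ℝ (Fin n))) :
    {t ∈ Icc (0 : ℝ) 1 | finrank ℝ (π.map (osc n m t)) ≠ min (finrank ℝ π) m}.Finite := by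
  rcases le_total (finrank ℝ π) m with hk | hk
  · refine (osc_rank n m π hk).subset ?_
    rintro t ⟨-, ht⟩
    rwa [min_eq_left hk] at ht
  · obtain ⟨S, hS, hSi⟩ := exists_finset_linearIndependent_of_le_finrank hk
    have h1 : finrank ℝ ((Submodule.span ℝ (S : Set π)).map π.subtype) = m := by
      rw [Submodule.finrank_map_subtype_eq, finrank_span_finset_eq_card hSi, hS]
    refine (osc_rank n m _ h1.le).subset ?_
    rintro t ⟨-, ht⟩ h2
    apply ht
    rw [min_eq_right hk]
    apply le_antisymm
    · refine (Submodule.finrank_le _).trans ?_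
      rw [finrank_euclideanSpace_fin]
    · calc m = finrank ℝ (((Submodule.span ℝ (S : Set π)).map π.subtype).map (osc n m t)) :=
            (h2.trans h1).symm
        _ ≤ finrank ℝ (π.map (osc n m t)) := by
            apply Submodule.finrank_mono
            apply Submodule.map_mono
            rintro _ ⟨y, -, rfl⟩
            exact y.2

theorem osc_analytic (n m : ℕ) (x : EuclideanSpace ℝ (Fin n)) (i : Fin m) :
    AnalyticOn ℝ (fun t => osc n m t x i) (Icc (0 : ℝ) 1) := by
  have h1 : (fun t => osc n m t x i) = fun t => aeval t (hasseDeriv (i : ℕ) (poly n x)) := by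
    funext t
    rw [osc_apply, coe_aeval_eq_eval]
  rw [h1]
  exact ((analyticOnNhd_id (𝕜 := ℝ) (s := univ)).aeval_polynomial _).analyticOn.mono (subset_univ _)

end RPS48
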